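import Pool.Agent.ATZ.Stmts2

/-!
# Squad ATP: pairs, and Alperin's weight conjecture for defect groups with a large centre: definitions

THEOREM T11.  For all primes `ℓ` and all `r`, `p` there is `a` such that the alternating sum is zero
for all blocks with a defect group `V` which has a central subgroup `Z` with `|Z : Z ^ ℓ| ≤ ℓ ^ r`,
`|V : Z| ≤ ℓ ^ p` (`TB.Cl`), and for which the exponent of the centre of `V` is at least `ℓ ^ a`;
`a = p + cb ℓ r p`.

This squad does the pairs of Alperin and Broué and the telescoping for nonabelian `V`; the bound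
`l(e) ≤ ℓ ^ c` is the hypothesis `Bd` (squad ATZ: `c = cb ℓ r p`).
-/

open scoped BigOperators

noncomputable section

namespace Pool.Agent.PP.TP

open Pool.Agent.Helper51_AWC Pool.Agent.Helper79_WRA Pool.Agent.PP Pool.Agent.PP.KF
open Pool.Agent.PP.K9 Pool.Agent.PP.K9.H97 Pool.Agent.PP.H75 Pool.Agent.PP.T3 Pool.Agent.PP.T2
open Pool.Agent.PP.TB

attribute [local instance] Ideal.Quotient.field

section defs

variable {G : Type} [Group G] {F : Type} [Field F]

/-- `b` is a block of the centraliser of the `ℓ`-subgroup `Q`. -/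
structure Pq (ℓ : ℕ) (Q : Subgroup G) (b : G → F) : Prop where
  pg : IsPGroup ℓ Q
  blk : Bx (Subgroup.centralizer (Q : Set G)) b

/-- The pair `(Q, b)` is normal in the pair `(P, c)`: `Q ≤ P ≤ N(Q)`, `P` stabilises `b` and
`br_P(b) c = c`. -/
structure Nl (Q : Subgroup G) (b : G → F) (P : Subgroup G) (c : G → F) : Prop where
  le : Q ≤ P
  nor : P ≤ Subgroup.normalizer (Q : Set G)
  inv : ∀ x ∈ P, cj x b = b
  und : mulF (br P b) c = c

/-- The order of Alperin and Broué: there is a chain of normal inclusions of pairs from `(Q, b)` to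
`(P, c)`. -/
inductive Le (ℓ : ℕ) (Q : Subgroup G) (b : G → F) : Subgroup G → (G → F) → Prop
  | refl : Le ℓ Q b Q b
  | step (R : Subgroup G) (a : G → F) (P : Subgroup G) (c : G → F) :
      Le ℓ Q b R a → Pq ℓ R a → Pq ℓ P c → Nl R a P c → Le ℓ Q b P c

theorem Le.one {ℓ : ℕ} {Q P : Subgroup G} {b c : G → F} (hQ : Pq ℓ Q b) (hP : Pq ℓ P c)
    (h : Nl Q b P c) : Le ℓ Q b P c := Le.step Q b P c Le.refl hQ hP h

theorem Le.trans {ℓ : ℕ} {Q R P : Subgroup G} {b a c : G → F} (h : Le ℓ Q b R a)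
    (h' : Le ℓ R a P c) : Le ℓ Q b P c := by
  induction h' with
  | refl => exact h
  | step S d P c _ hS hP hn ih => exact Le.step S d P c ih hS hP hn

theorem Le.sub {ℓ : ℕ} {Q P : Subgroup G} {b c : G → F} (h : Le ℓ Q b P c) : Q ≤ P := by
  induction h with
  | refl => exact le_rfl
  | step S d P c _ _ _ hn ih => exact ih.trans hn.le

/-- the first proper step of a chain -/
theorem Le.first [Finite G] {ℓ : ℕ} {Q P : Subgroup G} {b c : G → F} (hQ : Pq ℓ Q b)
    (h : Le ℓ Q b P c) : (Q = P ∧ b = c) ∨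
      ∃ (R : Subgroup G) (a : G → F), Pq ℓ R a ∧ Nl Q b R a ∧ Q < R ∧ Le ℓ R a P c := by
  induction h with
  | refl => exact Or.inl ⟨rfl, rfl⟩
  | step S d P c hS' hS hP hn ih =>
    rcases ih with ⟨rfl, rfl⟩ | ⟨R, a, hR, hna, hlt, hle⟩
    · rcases eq_or_lt_of_le hn.le with h1 | h1
      · subst h1
        refine Or.inl ⟨rfl, ?_⟩
        have h2 : br Q b = b := by
          funext t
          by_cases ht : t ∈ Subgroup.centralizer (Q : Set G)
          · exact br_in b ht
          · rw [br_out b ht, hQ.blk.supp t ht]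
        have h3 := hn.und
        rw [h2] at h3
        rcases hQ.blk.dich hP.blk with h4 | h4
        · exact h4
        · rw [h4] at h3
          exact absurd h3.symm hP.blk.ne
      · exact Or.inr ⟨P, c, hP, hn, h1, Le.refl⟩
    · exact Or.inr ⟨R, a, hR, hna, hlt, Le.step S d P c hle hS hP hn⟩

/-- the subgroup of the `ℓ ^ (a - 1)`-th powers of the centre of `V` -/
def Uz (ℓ a : ℕ) (V : Subgroup G) : Subgroup G := Uw (ℓ ^ (a - 1)) (Zc V)

/-- `V` is a defect group of the block `e`, the centre of `V` has index at most `ℓ ^ p` in `V` and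
exponent `ℓ ^ a`, `p < a`. -/
structure Hz (ℓ a p : ℕ) (e : G → F) (V : Subgroup G) : Prop where
  blk : IsBlk e
  tp : Tp ℓ e V
  exp : Monoid.exponent (Zc V) = ℓ ^ a
  idx : Nat.card V ≤ ℓ ^ p * Nat.card (Zc V)
  lt : p < a

/-- `f` is the block of `X = N(U)`, `U = Uz ℓ a V`, under `br_U(e)` with `br_V(f) = br_V(e)`. -/
structure Fz (ℓ a : ℕ) (e : G → F) (V : Subgroup G) (f : G → F) : Prop where
  blk : Bx (Subgroup.normalizer (Uz ℓ a V : Set G)) f
  supp : ∀ x, x ∉ Subgroup.centralizer (Uz ℓ a V : Set G) → f x = 0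
  und : mulF (br (Uz ℓ a V) e) f = f
  brV : br V f = br V e
  nle : Subgroup.normalizer (V : Set G) ≤ Subgroup.normalizer (Uz ℓ a V : Set G)
  tp : Tp ℓ (fun t : Subgroup.normalizer (Uz ℓ a V : Set G) => f t)
    (V.subgroupOf (Subgroup.normalizer (Uz ℓ a V : Set G)))

variable (M : Ideal (integralClosure ℤ ℂ)) [M.IsMaximal]

/-- The bound: the blocks with a defect group in the class `Cl ℓ r p` have at most `ℓ ^ c`
irreducible modular characters. -/
def Bd (ℓ r p c : ℕ) : Prop :=
  ∀ (G : Type) [Group G] [Finite G] (e : G → FF M) (V : Subgroup G), IsBlk e → Tp ℓ e V →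
    Cl ℓ r p V → ln e ≤ ℓ ^ c

/-- The hypothesis of the induction. -/
def Ihz (ℓ r p a n : ℕ) : Prop :=
  ∀ (A : Type) [Group A] [Finite A], Nat.card A < n → ∀ f : A → FF M, IsBlk f →
    ∀ V' : Subgroup A, Tp ℓ f V' → Cl ℓ r p V' → (∃ z ∈ Zc V', orderOf z = ℓ ^ a) → YY ℓ ⊤ f = 0

end defs

end Pool.Agent.PP.TP
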