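import Pool.Agent.ATP.Defs

/-!
# Squad ATP: statements

Complete proofs in the docstrings; all rows are independent (a row may take the rows which it uses
as hypotheses).  `C(Q)`, `N(Q)` are the centraliser and the normaliser.  Tools: `H66.br_mulF`
(`br_P` is multiplicative on `P`-invariant functions), `H66.orb_conj`, `C2.H3.br_br`,
`T2.H65.cj_br`, `H75.cj_mulF`, `Bx.dich`, `Bx.dich'`, `K9.H24.exists_blk` (a block on which an
additive functional is not zero), `C2.H3.gd_of_br'`, `C2.H3.br_ne_of_gd`, `T2.H32.supp_cent` (a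
central idempotent of `F N(U)` is supported on `C(U)`), `K9.H69.fmg`, `K9.dun_`, `H97.orb`.
-/

open scoped BigOperators

noncomputable section

namespace Pool.Agent.PP.TP

open Pool.Agent.Helper51_AWC Pool.Agent.Helper79_WRA Pool.Agent.PP Pool.Agent.PP.KF
open Pool.Agent.PP.K9 Pool.Agent.PP.K9.H97 Pool.Agent.PP.H75 Pool.Agent.PP.T3 Pool.Agent.PP.T2
open Pool.Agent.PP.TB

attribute [local instance] Ideal.Quotient.field

/-! ## 1. Pairs -/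

/-- NP1: below a pair `(P, c)` there is exactly one pair `(Q, b)` for each normal subgroup `Q` of
`P`.

Proof.  Uniqueness: for two such `b`, `b'`, `br_P(b b') c = br_P(b) br_P(b') c = c ≠ 0`
(`H66.br_mulF`, `b`, `b'` are `P`-invariant), so `b b' ≠ 0`, `b = b'` (`Bx.dich`).  Existence: `P` acts
by conjugation on the (finite, orthogonal) set of the blocks of `C(Q)`, whose sum is the identity
`δ_1`.  Let `t ∈ C(P)`.  `(cj x b)(t) = b(x⁻¹ t x) = b(t)` for `x ∈ P`, so `b ↦ b(t)` is constant on the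
orbits of `P`; the orbits have `1` or a multiple of `ℓ` elements, so `δ_1(t) = ∑_b b(t)` is the sum over
the blocks `b` fixed by `P`.  So `δ_1 = br_P(δ_1) = ∑_{b fixed} br_P(b)` and `c = ∑ br_P(b) c`; let `b` be fixed
with `br_P(b) c ≠ 0`.  `br_P(b)` is a central idempotent of `F C(P)` (`C(P) ≤ C(Q)`), so
`br_P(b) c = c`. -/
def Np1Stmt : Prop := ∀ (ℓ : ℕ) (F : Type) [Field F], GoodF ℓ F → ∀ (G : Type) [Group G] [Finite G]
  (Q P : Subgroup G), IsPGroup ℓ P → Q ≤ P → P ≤ Subgroup.normalizer (Q : Set G) →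
  ∀ c : G → F, Bx (Subgroup.centralizer (P : Set G)) c →
  ∃ b : G → F, Bx (Subgroup.centralizer (Q : Set G)) b ∧ Nl Q b P c ∧
    ∀ b' : G → F, Bx (Subgroup.centralizer (Q : Set G)) b' → Nl Q b' P c → b' = b

/-- PCJ: conjugation of pairs; elements of `Q` and of `C(Q)` stabilise `b`.

Proof.  `C(conjS g Q) = conjS g C(Q)`, `N(conjS g Q) = conjS g N(Q)`, `br (conjS g P) (cj g b) =
cj g (br P b)` (`T2.H65.cj_br`), `cj g (mulF a b) = mulF (cj g a) (cj g b)`, and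
`cj (g x g⁻¹) (cj g b) = cj g (cj x b)`; blocks go to blocks (`T3.H62.bx_cj`).  The last part: a block
of `C(Q)` is supported on `C(Q)` and it is a class function there. -/
def PcjStmt : Prop := ∀ (ℓ : ℕ) (F : Type) [Field F] (G : Type) [Group G] [Finite G] (g : G),
  (∀ (Q : Subgroup G) (b : G → F), Pq ℓ Q b → Pq ℓ (conjS g Q) (cj g b)) ∧
  (∀ (Q P : Subgroup G) (b c : G → F), Nl Q b P c → Nl (conjS g Q) (cj g b) (conjS g P) (cj g c)) ∧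
  (∀ (Q P : Subgroup G) (b c : G → F), Le ℓ Q b P c →
    Le ℓ (conjS g Q) (cj g b) (conjS g P) (cj g c)) ∧
  ∀ (Q : Subgroup G) (b : G → F), Pq ℓ Q b →
    g ∈ Q ⊔ Subgroup.centralizer (Q : Set G) → cj g b = b

/-- PEX: below a pair `(P, c)` there is a pair `(Q, b)` for each `Q ≤ P`.

Proof.  Induction on `|P : Q|`.  If `Q = P` take `b = c` (`Nl P c P c`: PCJ, `br P c = c`).  If
`P ≤ N(Q)`: NP1.  Otherwise `R = P ⊓ N(Q)` is larger than `Q` (normalisers grow in the `ℓ`-group `P`);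
induction gives `(R, a) ≤ (P, c)`, and NP1 gives `b` with `Nl Q b R a`; `Le.one`, `Le.trans`. -/
def PexStmt : Prop := ∀ (ℓ : ℕ) (F : Type) [Field F], GoodF ℓ F → ∀ (G : Type) [Group G] [Finite G]
  (P : Subgroup G) (c : G → F), Pq ℓ P c → ∀ Q ≤ P, ∃ b : G → F, Pq ℓ Q b ∧ Le ℓ Q b P c ∧
    (P ≤ Subgroup.normalizer (Q : Set G) → Nl Q b P c)

/-- PUN: uniqueness of the pair below `(P, c)`, and the normal case.

Proof.  Induction on `|P : Q|`, both claims for all `P`, `Q`, `b`, `c` together.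
(N) Let `P ≤ N(Q)`, `(Q, b) ≤ (P, c)`.  `Le.first`: if `Q = P`, `b = c`, see PEX.  Otherwise let
`(Q, b) ◁ (R, a) ≤ (P, c)`, `Q < R`.  If `R = P` then `a = c` by the uniqueness for `(P, P)`
(induction, or `Le.first`).  Let `R < P` and let `K` be a maximal subgroup of `P` which contains `R`; it
is normal in `P`.  PEX: `(K, m)` with `Nl K m P c`, and `(R, a')` with `(R, a') ≤ (K, m) ≤ (P, c)`;
by induction (`|P : R| < |P : Q|`) `a' = a`.  So `(Q, b) ≤ (K, m)`, and by induction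
(`|K : Q| < |P : Q|`) `Nl Q b K m`.  For `x ∈ P`: `(Q, cj x b) ≤ (K, cj x m) = (K, m)` (PCJ;
`conjS x Q = Q`, `conjS x K = K`), so `cj x b = b` by induction.  `br_K(b) m = m`; apply `br_P`
(`b`, `m`, `br_K(b)` are `P`-invariant): `br_P(b) br_P(m) = br_P(m)` (`br_P(br_K b) = br_P b`), and
`br_P(m) c = c`, so `br_P(b) c = c`.
(U) Let `(Q, b) ≤ (P, c)`, `(Q, b') ≤ (P, c)`.  If `P ≤ N(Q)`: (N) and NP1.  Otherwise
`S = P ⊓ N(Q)`, `Q < S < P`.  Let `(S, s) ≤ (P, c)` (PEX).  The first proper step (`Le.first`;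
`Q ≠ P`) of the chain of `(Q, b)` is `(Q, b) ◁ (R, a) ≤ (P, c)` with `Q < R ≤ S`.  PEX:
`(R, a') ≤ (S, s)`, and `a' = a` by induction.  So `(Q, b) ≤ (S, s)`, in the same way
`(Q, b') ≤ (S, s)`, and `b = b'` by induction (`|S : Q| < |P : Q|`). -/
def PunStmt : Prop := ∀ (ℓ : ℕ) (F : Type) [Field F], GoodF ℓ F → ∀ (G : Type) [Group G] [Finite G]
  (P : Subgroup G) (c : G → F), Pq ℓ P c → ∀ (Q : Subgroup G) (b : G → F), Pq ℓ Q b →
  Le ℓ Q b P c →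
  (∀ b' : G → F, Pq ℓ Q b' → Le ℓ Q b' P c → b' = b) ∧
  (P ≤ Subgroup.normalizer (Q : Set G) → Nl Q b P c)

/-- PIN: pairs in between.

Proof.  PEX: `(R, a) ≤ (P, c)` and `(Q, b') ≤ (R, a)`; then `(Q, b') ≤ (P, c)` and `b' = b` by PUN. -/
def PinStmt : Prop := ∀ (ℓ : ℕ) (F : Type) [Field F], GoodF ℓ F → ∀ (G : Type) [Group G] [Finite G]
  (P : Subgroup G) (c : G → F), Pq ℓ P c → ∀ (Q : Subgroup G) (b : G → F), Pq ℓ Q b →
  Le ℓ Q b P c → ∀ R : Subgroup G, Q ≤ R → R ≤ P →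
    ∃ a : G → F, Pq ℓ R a ∧ Le ℓ Q b R a ∧ Le ℓ R a P c

/-- PXB: an idempotent `E` of a subgroup `K` which contains `P` and `C(Q)`.

Proof.  Induction on the chain; for one step `Nl R a P c`, `Q ≤ R ≤ P ≤ K`, `C(R) ≤ C(Q) ≤ K`.  `E`
is invariant under `K`, so under `P`.  `br_R(E)` is a central idempotent of `F C(R)` and invariant
under `P` (`P ≤ N(R)`), `br_P(br_R(E)) = br_P(E)`.  If `br_R(E) a = a`, apply `br_P`:
`br_P(E) br_P(a) = br_P(a)`, multiply by `c`: `br_P(E) c = c`.  Otherwise `br_R(E) a = 0`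
(`Bx.dich'`), so `br_P(E) br_P(a) = 0`, `br_P(E) c = br_P(E) br_P(a) c = 0 ≠ c`. -/
def PxbStmt : Prop := ∀ (ℓ : ℕ) (F : Type) [Field F], GoodF ℓ F → ∀ (G : Type) [Group G] [Finite G]
  (K : Subgroup G) (E : G → F), Ix K E → ∀ (P : Subgroup G) (c : G → F), Pq ℓ P c → P ≤ K →
  ∀ (Q : Subgroup G) (b : G → F), Pq ℓ Q b → Subgroup.centralizer (Q : Set G) ≤ K →
  Le ℓ Q b P c → (mulF (br Q E) b = b ↔ mulF (br P E) c = c)

/-- PMX: every pair under the block `e` is contained in a pair `(D, γ')`, `D` a defect group.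

Proof.  Let `(P, c) ≥ (Q, b)` be a pair with `|P|` maximal.  `br_P(e) c = c` (PXB, `K = ⊤`), so `P` is
good for `e` and `|P| ≤ |V|`.  Suppose `|P| < |V|`.  Let `f` be a block of `N = N(P)` with `f c ≠ 0`
(`K9.H24.exists_blk`); `f` is supported on `C(P)` (`T2.H32.supp_cent`), so `f c = c`; `br_P(e) f = f`
(otherwise it is `0`, but `br_P(e) f c = c`).  `K9.DunStmt`: an `ℓ`-subgroup `R` of `N`, `P < R`, good
for `f`.  Let `c''` be a block of `C(R)` with `br_R(f) c'' = c''`.  NP1: `Nl P c₁ R c''`.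
`br_R(c₁ f) c'' = c''`, so `c₁ f ≠ 0`, `f c₁ = c₁`.  `K9.OrbStmt` (`N`, `X = C(P)`, `f`): `c = cj n c₁`
with `n ∈ N`.  PCJ: `Nl P c (conjS n R) (cj n c'')`, a pair larger than `(P, c)`, a contradiction.
So `|P| = |V|`, and `P = conjS x V` by `FmgStmt`. -/
def PmxStmt : Prop := ∀ (ℓ : ℕ) [Fact ℓ.Prime] (M : Ideal (integralClosure ℤ ℂ)) [M.IsMaximal],
  (ℓ : integralClosure ℤ ℂ) ∈ M → ∀ (G : Type) [Group G] [Finite G] (e : G → FF M)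
  (V : Subgroup G), IsBlk e → Tp ℓ e V → ∀ (Q : Subgroup G) (b : G → FF M), Pq ℓ Q b →
  mulF (br Q e) b = b → ∃ (x : G) (γ' : G → FF M), Pq ℓ (conjS x V) γ' ∧ Le ℓ Q b (conjS x V) γ'

/-- PMG: the same with a given block `γ` of `C(V)`.

Proof.  PMX: `(Q, b) ≤ (conjS x V, γ')`.  `br_{conjS x V}(e) γ' = γ'` (PXB), so `cj x⁻¹ γ'` and `γ` are
blocks of `C(V)` under `br_V(e)`, which is a block of `N(V)` (`FmgStmt`) supported on `C(V)`, so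
`cj x⁻¹ γ' = cj n γ` with `n ∈ N(V)` (`K9.OrbStmt`), `γ' = cj (x n) γ`,
`conjS x V = conjS (x n) V`. -/
def PmgStmt : Prop := ∀ (ℓ : ℕ) [Fact ℓ.Prime] (M : Ideal (integralClosure ℤ ℂ)) [M.IsMaximal],
  (ℓ : integralClosure ℤ ℂ) ∈ M → ∀ (G : Type) [Group G] [Finite G] (e : G → FF M)
  (V : Subgroup G), IsBlk e → Tp ℓ e V → ∀ γ : G → FF M,
  Bx (Subgroup.centralizer (V : Set G)) γ → mulF (br V e) γ = γ →
  ∀ (Q : Subgroup G) (b : G → FF M), Pq ℓ Q b → mulF (br Q e) b = b →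
  ∃ g : G, Pq ℓ (conjS g V) (cj g γ) ∧ Le ℓ Q b (conjS g V) (cj g γ)

/-- PTR: the pairs of a subgroup `K` which contains `C(Q)`.

Proof.  First part: `C_K(Q) = C(Q)` as `C(Q) ≤ K`.  Second part: induction on the chain.  For
`Q_K ≤ P'`, `P = P'.map K.subtype ≥ Q`, `C(P) ≤ C(Q) ≤ K`, so the centraliser of `P'` in `K` is
`C(P).subgroupOf K`; `ext0 K c'` is supported on `K`, with restriction `c'`; `br`, `mulF`, `cj` commute
with `ext0 K`; `ext0 K` of the restriction of `b` is `b`. -/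
def PtrStmt : Prop := ∀ (ℓ : ℕ) (F : Type) [Field F] (G : Type) [Group G] [Finite G]
  (K Q : Subgroup G), Q ≤ K → Subgroup.centralizer (Q : Set G) ≤ K → ∀ b : G → F, Pq ℓ Q b →
  Pq ℓ (Q.subgroupOf K) (fun t : K => b t) ∧
  ∀ (P' : Subgroup K) (c' : K → F), Le ℓ (Q.subgroupOf K) (fun t : K => b t) P' c' →
    Pq ℓ (P'.map K.subtype) (H75.ext0 K c') ∧ Le ℓ Q b (P'.map K.subtype) (H75.ext0 K c')

/-- PMK: PMX for the block `f` of a subgroup `K` which contains `C(Q)`.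

Proof.  PMX in the group `K` (`f` restricted to `K`, `V.subgroupOf K`, the pair of the first part of PTR;
`br (Q.subgroupOf K)` of the restriction of `f` is the restriction of `br Q f`, because
`C(Q) ≤ K`), then PTR; `(conjS x (V.subgroupOf K)).map K.subtype = conjS x V`. -/
def PmkStmt : Prop := ∀ (ℓ : ℕ) [Fact ℓ.Prime] (M : Ideal (integralClosure ℤ ℂ)) [M.IsMaximal],
  (ℓ : integralClosure ℤ ℂ) ∈ M → ∀ (G : Type) [Group G] [Finite G] (K V : Subgroup G)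
  (f : G → FF M), Bx K f → V ≤ K → Tp ℓ (fun t : K => f t) (V.subgroupOf K) →
  ∀ (Q : Subgroup G) (b : G → FF M), Pq ℓ Q b → Q ≤ K → Subgroup.centralizer (Q : Set G) ≤ K →
  mulF (br Q f) b = b →
  ∃ x ∈ K, ∃ γ' : G → FF M, Pq ℓ (conjS x V) γ' ∧ Le ℓ Q b (conjS x V) γ'

/-- PCD: `S` is a defect group of the block `b` of `C(Q)`.

Proof.  `C(S ⊔ Q) = C(S) ⊓ C(Q)`.  `Nl`: `S ⊔ Q ≤ Q C(Q)` stabilises `b` (PCJ), and `br_{S ⊔ Q}(b) =
br_S(b)` (`b` is supported on `C(Q)`).  Let `(S ⊔ Q, b₃) ≤ (D, γ)`, `S' = D ⊓ C(Q) ≥ S`.  PIN: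
`(S ⊔ Q, b₃) ≤ (S' ⊔ Q, s) ≤ (D, γ)`, so `(Q, b) ≤ (S' ⊔ Q, s)`, and PUN (`S' ⊔ Q ≤ N(Q)`) gives
`br_{S' ⊔ Q}(b) s = s`, so `b` does not vanish on `C(S')`, `|S'| ≤ |S|`, `S' = S`.  The centre of
`D` is contained in `C(Q)` (`Q ≤ D`) and in `D`, so in `S`, and it centralises `S ≤ D`. -/
def PcdStmt : Prop := ∀ (ℓ : ℕ) [Fact ℓ.Prime] (F : Type) [Field F], GoodF ℓ F → ∀ (G : Type)
  [Group G] [Finite G] (Q S : Subgroup G) (b b₃ : G → F), Pq ℓ Q b →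
  S ≤ Subgroup.centralizer (Q : Set G) →
  Tp ℓ (fun t : Subgroup.centralizer (Q : Set G) => b t)
    (S.subgroupOf (Subgroup.centralizer (Q : Set G))) →
  Bx (Subgroup.centralizer ((S ⊔ Q : Subgroup G) : Set G)) b₃ → mulF (br S b) b₃ = b₃ →
  Pq ℓ (S ⊔ Q) b₃ ∧ Nl Q b (S ⊔ Q) b₃ ∧ ∀ (D : Subgroup G) (γ : G → F), Pq ℓ D γ →
    Le ℓ (S ⊔ Q) b₃ D γ → D ⊓ Subgroup.centralizer (Q : Set G) = S ∧ Zc D ≤ Zc S

/-! ## 2. The blocks of `N(Q)/Q` -/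

/-- PQZ: a block `f₁` of `A = N(Q)/Q` under the image of `br_Q(e)`, with defect group `δ`.

Proof (compare `Helper65_AT3/QT1.lean`).  `R` = the preimage of `δ`, an `ℓ`-group.  `q : C(Q) → A`
the restriction of `π`, its kernel `Q ⊓ C(Q)` is a central `ℓ`-subgroup, its image `C'` is normal in `A`.
For functions `a` supported on `C(Q)`, `push π a = push q a`.
(1) `R` acts on the blocks `b` of `C(Q)` under `e` (`br_Q(e)` is their sum).  For `y ∈ C_A(δ)` the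
function `b ↦ push q b y` is constant on the orbits (`push π (cj x b) = cj (π x) (push π b)`), so
`br_δ(push π (br_Q e)) = ∑ br_δ(push q b)` over the `R`-stable `b` (as in NP1).  Multiply by `br_δ(f₁) ≠ 0`:
`br_δ(f₁) = br_δ(f₁ push π (br_Q e)) = ∑ br_δ(f₁) br_δ(push q b)`.  Fix an `R`-stable `b` with
`br_δ(push q b) br_δ(f₁) ≠ 0`.
(2) `br_δ(push π b) = push π (br_R b)` (`T2.H65.push_br_inv`), and `br_R(b)` is a central idempotent of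
`F C(R)`, so there is a block `b₃` of `C(R)` with `br_R(b) b₃ = b₃` and `push π b₃ br_δ(f₁) ≠ 0`
(`K9.H24.exists_blk`).  `Nl Q b R b₃`; `br_R(e) b₃ = b₃` (apply `br_R` to `br_Q(e) b = b`).
(3) Let `(R, b₃) ≤ (D, γ)`, `S = D ⊓ C(Q)`.  PIN and PUN, as in PCD: `b` does not vanish on `C(S)`.
`b' = push q b` is a block of `C'` (`T3.H43.push_blk`), the image `S'` of `S` is good for `b'`
(`K9.PugStmt`; `S` contains the kernel), `f₁ b' ≠ 0` (`b'` is `δ`-invariant and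
`br_δ(f₁ b') ≠ 0`), so `S'` is good for `f₁` (`T3.H65.cover_gd`), `S' ≤ conjS x δ` (`FmgStmt` for `A`),
`|S'| ≤ |conjS x δ ⊓ C'| = |δ ⊓ C'|`.  `δ ⊓ C'` is the image of `R ⊓ C(Q)` (`Q ≤ R`), which is
contained in `S`; so the images of `R ⊓ C(Q)` and of `S` are equal, both contain the kernel of `q`,
so `S = R ⊓ C(Q)`. -/
def PqzStmt : Prop := ∀ (ℓ : ℕ) [Fact ℓ.Prime] (M : Ideal (integralClosure ℤ ℂ)) [M.IsMaximal],
  (ℓ : integralClosure ℤ ℂ) ∈ M → ∀ (G : Type) [Group G] [Finite G] (e : G → FF M), IsIdem e →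
  ∀ Q : Subgroup G, IsPGroup ℓ Q → ∀ (A : Type) [Group A] [Finite A]
  (π : Subgroup.normalizer (Q : Set G) →* A), Function.Surjective π →
  π.ker = Q.subgroupOf (Subgroup.normalizer (Q : Set G)) → ∀ f₁ : A → FF M, IsBlk f₁ →
  mulF (push π (fun t : Subgroup.normalizer (Q : Set G) => br Q e t)) f₁ = f₁ →
  ∀ δ : Subgroup A, Tp ℓ f₁ δ →
  ∃ (R : Subgroup G) (b b₃ : G → FF M), Q ≤ R ∧ R ≤ Subgroup.normalizer (Q : Set G) ∧
    (R.subgroupOf (Subgroup.normalizer (Q : Set G))).map π = δ ∧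
    Pq ℓ Q b ∧ Pq ℓ R b₃ ∧ Nl Q b R b₃ ∧ mulF (br Q e) b = b ∧ mulF (br R e) b₃ = b₃ ∧
    mulF (push π (fun t : Subgroup.normalizer (Q : Set G) => b₃ t)) (br δ f₁) ≠ 0 ∧
    ∀ (D : Subgroup G) (γ : G → FF M), Pq ℓ D γ → Le ℓ R b₃ D γ →
      D ⊓ Subgroup.centralizer (Q : Set G) ≤ R

/-! ## 3. Groups -/

/-- ZCF: the centre and the subgroup `Uz`.

Proof.  The centre is characteristic; `T2.PwuStmt` for the abelian group `Zc V`.  (The first block: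
definitions.  `Uz ℓ a V ≠ ⊥`: otherwise the exponent of `Zc V` divides `ℓ ^ (a - 1)`.) -/
def ZcfStmt : Prop := ∀ (G : Type) [Group G] [Finite G] (V : Subgroup G),
  (Zc V ≤ V ∧ V ≤ Subgroup.centralizer (Zc V : Set G) ∧
    (∀ x ∈ Zc V, ∀ y ∈ Zc V, x * y = y * x) ∧
    Subgroup.normalizer (V : Set G) ≤ Subgroup.normalizer (Zc V : Set G) ∧
    (∀ g : G, Zc (conjS g V) = conjS g (Zc V)) ∧
    ∀ X : Subgroup G, V ≤ X → Zc (V.subgroupOf X) = (Zc V).subgroupOf X) ∧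
  (∀ ℓ a : ℕ, Uz ℓ a V ≤ Zc V ∧ V ≤ Subgroup.centralizer (Uz ℓ a V : Set G) ∧
    Subgroup.normalizer (V : Set G) ≤ Subgroup.normalizer (Uz ℓ a V : Set G) ∧
    (∀ g : G, Uz ℓ a (conjS g V) = conjS g (Uz ℓ a V)) ∧
    (∀ X : Subgroup G, V ≤ X → Uz ℓ a (V.subgroupOf X) = (Uz ℓ a V).subgroupOf X) ∧
    (ℓ.Prime → 0 < a → Monoid.exponent (Zc V) = ℓ ^ a → Uz ℓ a V ≠ ⊥ ∧
      ∃ z ∈ Zc V, orderOf z = ℓ ^ a)) ∧
  (∀ ℓ r p : ℕ, Cl ℓ r p V → Nat.card V ≤ ℓ ^ p * Nat.card (Zc V) ∧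
    (∀ g : G, Cl ℓ r p (conjS g V)) ∧ ∀ X : Subgroup G, V ≤ X → Cl ℓ r p (V.subgroupOf X)) ∧
  ∀ ℓ a : ℕ, ℓ.Prime → IsPGroup ℓ V → (∃ z ∈ Zc V, orderOf z = ℓ ^ a) →
    ∃ a', a ≤ a' ∧ Monoid.exponent (Zc V) = ℓ ^ a'

/-- CTQ: sections `R/Q` with `Zc V ≤ R`.

Proof.  Let `Z ≤ Zc V` be as in `Cl` and `Z'` its image under `φ`; it is central in `V'` (`Z` is central
in `V ≥ R`), `|V' : Z'| ≤ |R : Z| ≤ |V : Z| ≤ ℓ ^ p` (`Cl` says this without indices), and `Uw ℓ Z'` is the image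
of `Uw ℓ Z`, so `|Z' : Uw ℓ Z'| ≤ |Z : Uw ℓ Z|`.  Last claim: the image of `Zc V` is contained in the centre of `V'`; by
`T2.PwuStmt` (for `Zc V`, `φ`; or directly) its exponent is `ℓ ^ a`, and then it has an
element of order `ℓ ^ a` (it is an abelian `ℓ`-group), or `Uz ℓ a V` is in the kernel. -/
def CtqStmt : Prop := ∀ (ℓ : ℕ) [Fact ℓ.Prime] (G A : Type) [Group G] [Finite G] [Group A]
  [Finite A] (r p : ℕ) (V R N : Subgroup G) (φ : N →* A) (V' : Subgroup A), IsPGroup ℓ V →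
  R ≤ V → R ≤ N → Zc V ≤ R → V' = (R.subgroupOf N).map φ →
  (Cl ℓ r p V → Cl ℓ r p V') ∧ ∀ a : ℕ, 0 < a → Monoid.exponent (Zc V) = ℓ ^ a →
    (∃ z ∈ Zc V', orderOf z = ℓ ^ a) ∨ Uz ℓ a V ≤ φ.ker.map N.subtype

/-! ## 4. The block `f` of `N(U)` -/

/-- FSP: existence.

Proof (compare `Helper32_AT2/FST.lean`, `Helper56_AT5/FS5.lean`).  `U = Uz ℓ a V`, `X = N(U) ≥ N(V)`
(ZCF), `V ≤ C(U)`.  `br_U(e)` is a central idempotent of `F X` (`BrmStmt`), the sum of the blocks `f_i` of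
`X` under it.  `br_V(e) = br_V(br_U(e)) = ∑ br_V(f_i)`, orthogonal central idempotents of
`F N(V)`, and `br_V(e)` is a block of `N(V)` (`FmgStmt`), so `br_V(f) = br_V(e)` for exactly one
`f = f_i`.  `supp`: `T2.H32.supp_cent`.  `tp`: `V` is good for `f`, and an `ℓ`-subgroup `P` of `X` good
for `f` is good for `br_U(e)`, so `P U` is good for `e` (or: `P` is good for `e`, since
`br_U(e)` is `e` on `C(U)` and `f` is supported there), so `|P| ≤ |V|`. -/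
def FspStmt : Prop := ∀ (ℓ : ℕ) [Fact ℓ.Prime] (M : Ideal (integralClosure ℤ ℂ)) [M.IsMaximal],
  (ℓ : integralClosure ℤ ℂ) ∈ M → ∀ (G : Type) [Group G] [Finite G] (a p : ℕ) (e : G → FF M)
  (V : Subgroup G), Hz ℓ a p e V → ∃ f, Fz ℓ a e V f

/-- UOP: the idempotents over different conjugates of `U` are orthogonal.

Proof.  `ix`, `supp`, `und` from `Fz`.  `ort`: let `U₁ = conjS g U`, `U₂ = conjS h U`, and
suppose `E₁ E₂ ≠ 0`, `E₁ = br_Q(cj g f)`, `E₂ = br_Q(cj h f)`.  These are central idempotents of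
`F C(Q)` (`C(Q) ≤ C(U₁) ≤ N(U₁)`, `Q ≤ C(U₁)`).  Let `b` be a block of `C(Q)` with `E₁ b = b = E₂ b`.
`br_Q(e) b = b` (`br_Q(e) E₁ = E₁`: conjugate `Fz.und` and apply `br_Q`).  Let `S ≤ C(Q)` be a
defect group of `b` (a good `ℓ`-subgroup of `C(Q)` of maximal order), `b₃` a block of `C(S ⊔ Q)` with
`br_S(b) b₃ = b₃`.  PCD: `Nl Q b (S ⊔ Q) b₃`, so by PXB (`K = N(U₁)`, `E = cj g f`;
`S ⊔ Q ≤ C(U₁)`) `br_{S ⊔ Q}(cj g f) b₃ = b₃`.  PMK for `K = N(U₁)` (= `conjS g N(U)`), the block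
`cj g f`, its defect group `conjS g V` (or for `K = N(U)` and the pair conjugated by `g⁻¹`):
`(S ⊔ Q, b₃) ≤ (D₁, γ₁)`, `D₁ = conjS g₁ V`, `g₁ = x g`, `x ∈ N(U₁)`, so `Uz ℓ a D₁ =
conjS g₁ U = U₁`.  In the same way `(S ⊔ Q, b₃) ≤ (D₂, γ₂)`, `D₂ = conjS g₂ V`, `Uz ℓ a D₂ = U₂`.
PCD: `Zc D₁ ≤ Zc S`, `Zc D₂ ≤ Zc S`.  `W = Uw (ℓ ^ p) (Zc S)`.  `W ≤ Zc D₁`:
`|Zc S : Zc S ⊓ Zc D₁| ≤ |D₁ : Zc D₁| ≤ ℓ ^ p` (`Zc S ≤ D₁`), so the `ℓ ^ p`-th powers of the elements of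
the abelian `ℓ`-group `Zc S` are in `Zc D₁`.  The same for `D₂`.  `U₁ = Uw (ℓ ^ (a - 1)) (Zc D₁) ≤
Uw (ℓ ^ (a - 1)) (Zc S) ≤ W` (`p ≤ a - 1`), and `U₂ ≤ W`.  PEX: `(W, w) ≤ (S ⊔ Q, b₃)`
(`W ≤ S`).  `(W, w) ≤ (D₁, γ₁)`, `D₁ ≤ C(W)`, so PUN: `br_{D₁}(w) γ₁ = γ₁`, `D₁` is
good for `w`; the same for `D₂`.  `br_W(e) w = w` (PXB), so an `ℓ`-subgroup `P` of `C(W)` good for
`w` is good for `e`, `|P| ≤ |V|`.  So `D₁` and `D₂` are defect groups of the block `w` of `C(W)`, and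
`FmgStmt` (for `C(W)`): `D₂ = conjS c D₁`, `c ∈ C(W)`.  Then `U₂ = Uz ℓ a D₂ = conjS c U₁ = U₁`
(`U₁ ≤ W`), a contradiction. -/
def UopStmt : Prop := ∀ (ℓ : ℕ) [Fact ℓ.Prime] (M : Ideal (integralClosure ℤ ℂ)) [M.IsMaximal],
  (ℓ : integralClosure ℤ ℂ) ∈ M → ∀ (G : Type) [Group G] [Finite G] (a p : ℕ) (e : G → FF M)
  (V : Subgroup G), Hz ℓ a p e V → ∀ f, Fz ℓ a e V f → T5.Uo ℓ e (Uz ℓ a V) f

/-- TYP: the blocks of `N(Q)/Q` which are not over a conjugate of `(U, f)`.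

Proof.  Let `V'` be a defect group of `f₁`, and `R`, `b₃` from PQZ (`δ = V'`).  Let `γ` be a block of
`C(V)` with `br_V(e) γ = γ`.  PMG: `(R, b₃) ≤ (D, γ₁)`, `D = conjS g V`, `γ₁ = cj g γ`.  PQZ:
`Zc D ≤ D ⊓ C(Q) ≤ R` (`Q ≤ R ≤ D`).  CTQ (for `D`; ZCF: `Cl ℓ r p D`, the exponent of `Zc D`
is `ℓ ^ a`): `Cl ℓ r p V'`, and `Zc V'` has an element of order `ℓ ^ a` or
`conjS g U = Uz ℓ a D ≤ Q`.  Suppose the latter.  `Bt U Q g` (`Q ≤ D ≤ C(conjS g U)`).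
`br_V(f) γ = br_V(e) γ = γ`, so `br_D(cj g f) γ₁ = γ₁`, and PXB (`K = N(conjS g U)`, `E = cj g f`;
`D ≤ K`, `C(R) ≤ C(Q) ≤ C(conjS g U) ≤ K`): `br_R(cj g f) b₃ = b₃`.  Apply `push π`
(`C(R) ≤ C(Q)`; it is multiplicative): `push π (br_R(cj g f)) push π b₃ = push π b₃`.  The function
`br_Q(cj g f)` is `R`-invariant (`R ≤ N(Q)`, `R ≤ D ≤ N(conjS g U)`), so
`br_{V'}(push π (br_Q(cj g f))) = push π (br_R(cj g f))` (`T2.H65.push_br_inv`, `br_R br_Q = br_R`).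
By hypothesis `push π (br_Q(cj g f)) f₁ = 0`, so `br_{V'}(push π (br_Q(cj g f))) br_{V'}(f₁) = 0`, and
`push π b₃ br_{V'}(f₁) = push π b₃ br_{V'}(push π (br_Q(cj g f))) br_{V'}(f₁) = 0`, which
contradicts PQZ. -/
def TypStmt : Prop := ∀ (ℓ : ℕ) [Fact ℓ.Prime] (M : Ideal (integralClosure ℤ ℂ)) [M.IsMaximal],
  (ℓ : integralClosure ℤ ℂ) ∈ M → ∀ (G : Type) [Group G] [Finite G] (a p r : ℕ) (e : G → FF M)
  (V : Subgroup G), Hz ℓ a p e V → Cl ℓ r p V → ∀ f, Fz ℓ a e V f →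
  ∀ Q : Subgroup G, IsPGroup ℓ Q → ∀ (A : Type) [Group A] [Finite A]
  (π : Subgroup.normalizer (Q : Set G) →* A), Function.Surjective π →
  π.ker = Q.subgroupOf (Subgroup.normalizer (Q : Set G)) → ∀ f₁ : A → FF M, IsBlk f₁ →
  mulF (push π (fun t : Subgroup.normalizer (Q : Set G) => br Q e t)) f₁ = f₁ →
  (∀ g : G, Bt (Uz ℓ a V) Q g →
    mulF (push π (fun t : Subgroup.normalizer (Q : Set G) => br Q (cj g f) t)) f₁ = 0) →
  ∃ V' : Subgroup A, Tp ℓ f₁ V' ∧ Cl ℓ r p V' ∧ ∃ z ∈ Zc V', orderOf z = ℓ ^ a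

/-- TXP: the subgroups of `X = N(U)` which are not between `U` and `C(U)`.

Proof.  `AddStmt`: `YQ` is the sum of the `YY ⊤ f₁` over the blocks `f₁` of `A = N_X(Q)/Q` under
`push (br_Q f_X)` (all in the group `X`).  Let `V'` be a defect group of `f₁`, `R ≤ X` and `b₃` from
PQZ for the group `X` and `e = f_X` (`δ = V'`).  PMX (group `X`, block `f_X`, defect group
`V_X = V.subgroupOf X`, `Fz.tp`): `(R, b₃) ≤ (D, γ')`, `D = conjS x V_X`.  PQZ: `Zc D ≤ R`.  ZCF and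
CTQ (for `D`, in `X`): `Cl ℓ r p V'`, and `Zc V'` has an element of order `ℓ ^ a`, or
`Uz ℓ a D = conjS x U_X = U_X ≤ Q` (`U_X` is normal in `X`); in the second case `Q ≤ D ≤ C(U_X)`, which is
excluded.  So `Zc V'` has an element of order `ℓ ^ a`, and also one of order `ℓ ^ a₀` (a power).
`|A| < |X| ≤ |G|` (`Q ≠ ⊥`), so `YY ⊤ f₁ = 0` by `Ihz`.  (Compare `Helper92_AT5/TX5.lean`.) -/
def TxpStmt : Prop := ∀ (ℓ : ℕ) [Fact ℓ.Prime] (M : Ideal (integralClosure ℤ ℂ)) [M.IsMaximal],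
  (ℓ : integralClosure ℤ ℂ) ∈ M → ∀ (G : Type) [Group G] [Finite G] (a p r a₀ : ℕ)
  (e : G → FF M) (V : Subgroup G), Hz ℓ a p e V → Cl ℓ r p V → ∀ f, Fz ℓ a e V f →
  a₀ ≤ a → Ihz M ℓ r p a₀ (Nat.card G) → ∀ (U : Subgroup G), U = Uz ℓ a V →
  ∀ Q : Subgroup (Subgroup.normalizer (U : Set G)), IsPGroup ℓ Q → Q ≠ ⊥ →
  ¬ (U.subgroupOf (Subgroup.normalizer (U : Set G)) ≤ Q ∧
    Q ≤ (Subgroup.centralizer (U : Set G)).subgroupOf (Subgroup.normalizer (U : Set G))) →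
  YQ ℓ (fun t : Subgroup.normalizer (U : Set G) => f t) Q = 0

/-! ## 5. The theorem -/

/-- DVP: divisibility.

Proof.  As `T5.Dv5Stmt` (`Helper23_AT5/DV5.lean`; its proof does not use the order of `V`) with
`B = Zc V`, of index at most `ℓ ^ p`, `u = z ∈ Zc V` of order `ℓ ^ a`. -/
def DvpStmt : Prop := ∀ (ℓ : ℕ) [Fact ℓ.Prime] (M : Ideal (integralClosure ℤ ℂ)) [M.IsMaximal],
  (ℓ : integralClosure ℤ ℂ) ∈ M → ∀ (G : Type) [Group G] [Finite G], opCore ℓ G = ⊥ →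
  ∀ (a p : ℕ) (e : G → FF M) (V : Subgroup G), IsBlk e → Tp ℓ e V → Nat.card V ≤ ℓ ^ p * Nat.card (Zc V) →
  (∃ z ∈ Zc V, orderOf z = ℓ ^ a) →
  ∀ χ ∈ Irr G, res M e χ = 1 → ((ℓ ^ (a - p) : ℕ) : ℤ) ∣ altSum ℓ M χ

/-- TPA: the main theorem for block idempotents, given the bound.

Proof (compare `Helper43_AT5/T5A.lean`).  Induction on `|G|`.  If `opCore ℓ G ≠ ⊥`: `YzrStmt`.  Let
`opCore ℓ G = ⊥`.  ZCF: `a ≤ a'`, the exponent of `Zc V` is `ℓ ^ a'`; `Hz ℓ a' p e V`.  FSP: `f`.  UOP.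
`U = Uz ℓ a' V ≠ ⊥`, an `ℓ`-group.  The first hypothesis of `T5.Ts5Stmt`: `T5.Ta5Stmt` with TYP (an
element of order `ℓ ^ a'` has a power of order `ℓ ^ a`) and the induction hypothesis
(`|N(Q)/Q| < |G|`).  The second one: TXP (`a₀ = a`; `Ihz` is the induction hypothesis).  So
`YY ⊤ e = |G| (ln e - ln f_X)`, and `1 ≤ ln e, ln f_X ≤ ℓ ^ c` (`K9.LbdStmt`, `Bd` for `e`, `V` and for
`f_X`, `V_X`; ZCF: `Cl ℓ r p V_X`).  `H75.block_case` (with `T3.PosStmt`): `χ` with `res M e χ = 1`,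
`|G| altSum χ = YY ⊤ e`, so `|altSum χ| < ℓ ^ c ≤ ℓ ^ (a' - p)`, and `ℓ ^ (a' - p)` divides it (DVP):
`altSum χ = 0`. -/
def TpaStmt : Prop := ∀ (ℓ : ℕ) [Fact ℓ.Prime] (M : Ideal (integralClosure ℤ ℂ)) [M.IsMaximal],
  (ℓ : integralClosure ℤ ℂ) ∈ M → ∀ r p c a : ℕ, Bd M ℓ r p c → c + p ≤ a → p < a →
  ∀ (G : Type) [Group G] [Finite G] (e : G → FF M) (V : Subgroup G), IsBlk e → Tp ℓ e V →
  Cl ℓ r p V → (∃ z ∈ Zc V, orderOf z = ℓ ^ a) → YY ℓ ⊤ e = 0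

/-- FNP: the final theorem, given the bound.  `D` is a defect group of `χ`; `Z ≤ D` is central in `D`
modulo `O_ℓ(G)`, `|D : Z| ≤ ℓ ^ p`, `Z / O_ℓ(G)` is generated by `r` elements, `z ∈ D` is central in `D`
modulo `O_ℓ(G)`, of order `ℓ ^ a` modulo `O_ℓ(G)`.

Proof (compare `Helper43_AT5/FN5.lean`).  `e` the block of `χ` (`H50.bid`), `O = opCore ℓ G`,
`π : G → G/O`.  `H75.altSum_central`: `|G| altSum χ = |O|² YY ℓ ⊤ (push π e)`.  `T5.Dz5Stmt`: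
`Tp ℓ (push π e) D'`, `D' = π(D)`.  `π(Z) ≤ Zc D'`, `|D' : π(Z)| ≤ |D : Z|`, `Uw ℓ (π Z) = π(Uw ℓ Z)`, so
`|π(Z) : Uw ℓ (π Z)| = |Z : Uw ℓ Z ⊔ O| ≤ ℓ ^ r`; `π z ∈ Zc D'` has order `ℓ ^ a`.  TPA. -/
def FnpStmt : Prop := ∀ (ℓ : ℕ) [Fact ℓ.Prime] (M : Ideal (integralClosure ℤ ℂ)) [M.IsMaximal],
  (ℓ : integralClosure ℤ ℂ) ∈ M → ∀ r p c a : ℕ, Bd M ℓ r p c → c + p ≤ a → p < a →
  ∀ (G : Type) [Group G] [Finite G], opCore ℓ G ≤ Subgroup.center G → ∀ χ ∈ Irr G,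
  ∀ D : Subgroup G, ML.IsDef ℓ M χ D → ∀ Z ≤ D, opCore ℓ G ≤ Z →
  (∀ x ∈ Z, ∀ d ∈ D, x * d * x⁻¹ * d⁻¹ ∈ opCore ℓ G) →
  Nat.card Z ≤ ℓ ^ r * Nat.card (Uw ℓ Z ⊔ opCore ℓ G : Subgroup G) →
  Nat.card D ≤ ℓ ^ p * Nat.card Z →
  (∃ z ∈ D, (∀ d ∈ D, z * d * z⁻¹ * d⁻¹ ∈ opCore ℓ G) ∧
    ∀ n : ℕ, z ^ n ∈ opCore ℓ G ↔ ℓ ^ a ∣ n) → altSum ℓ M χ = 0

end Pool.Agent.PP.TP
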